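import Mathlib

/-!
A sweep certificate for planarity: a graph on `0, .., n-1`, a list of active edges
(bottom to top), event `i` replaces the consecutive block of edges ending at `i` by the
edges starting at `i`.  An accepted sweep gives an x-monotone piecewise linear drawing.
-/

set_option autoImplicit false

namespace Pool.Agent.Havel

/-- The sweep, `k` events from time `i` on with active list `L`. -/
def run (pos : ℕ → ℕ) (out : ℕ → List ℕ) : ℕ → ℕ → List (ℕ × ℕ) → Bool
  | 0, _, L => L.isEmpty
  | (k+1), i, L =>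
    let A := L.take (pos i)
    let R := L.drop (pos i)
    let C := R.dropWhile (fun e => e.2 == i)
    A.all (fun e => e.2 != i) && (C.all (fun e => e.2 != i) &&
      ((out i).all (fun w => Nat.blt i w) && (decide (out i).Nodup &&
        run pos out k (i+1) (A ++ (out i).map (fun w => (i, w)) ++ C))))

/-- `e` starts or ends at `i`. -/
def Touch (i : ℕ) (e : ℕ × ℕ) : Prop := e.1 = i ∨ e.2 = i

instance (i : ℕ) (e : ℕ × ℕ) : Decidable (Touch i e) := by unfold Touch; infer_instance

/-- Height at time `i`. -/
noncomputable def hgt (i : ℕ) (A C : List (ℕ × ℕ)) (e : ℕ × ℕ) : ℝ :=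
  if Touch i e then (A.length : ℝ) else
    if e ∈ A then (A.idxOf e : ℝ) else (A.length : ℝ) + 1 + (C.idxOf e : ℝ)

theorem hgt_ne (i : ℕ) (A C : List (ℕ × ℕ)) (e : ℕ × ℕ) (h : ¬ Touch i e) :
    hgt i A C e ≠ (A.length : ℝ) := by
  unfold hgt
  rw [if_neg h]
  split_ifs with h1
  · have := List.idxOf_lt_length_of_mem h1
    have h2 : ((A.idxOf e : ℕ) : ℝ) < (A.length : ℝ) := by exact_mod_cast this
    exact ne_of_lt h2
  · have : (0 : ℝ) ≤ (C.idxOf e : ℝ) := by positivity
    intro h3
    linarith

theorem forall_of_pairwise {R : ℕ × ℕ → ℕ × ℕ → Prop} (hs : ∀ a b, R a b → R b a)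
    {l : List (ℕ × ℕ)} (hl : l.Pairwise R) {a b : ℕ × ℕ} (ha : a ∈ l) (hb : b ∈ l)
    (hab : a ≠ b) : R a b := by
  have : Std.Symm R := ⟨hs⟩
  exact List.Pairwise.forall hl ha hb hab

theorem pairwise_idxOf {l : List (ℕ × ℕ)} (h : l.Nodup) :
    l.Pairwise (fun e f => l.idxOf e < l.idxOf f) := by
  rw [List.pairwise_iff_getElem]
  intro i j hi hj hij
  rw [h.idxOf_getElem, h.idxOf_getElem]
  exact hij

theorem pairwise_hgt (i : ℕ) (A M C : List (ℕ × ℕ)) (hn : (A ++ M ++ C).Nodup)
    (hA : ∀ e ∈ A, ¬ Touch i e) (hM : ∀ e ∈ M, Touch i e) (hC : ∀ e ∈ C, ¬ Touch i e) :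
    (A ++ M ++ C).Pairwise (fun e f => hgt i A C e ≤ hgt i A C f ∧
      (hgt i A C e = hgt i A C f → Touch i e ∧ Touch i f)) := by
  have hnA : A.Nodup := (List.nodup_append.1 (List.nodup_append.1 hn).1).1
  have hnC : C.Nodup := (List.nodup_append.1 hn).2.1
  have hAC : ∀ e ∈ C, e ∉ A := by
    intro e he he'
    exact (List.nodup_append.1 hn).2.2 e (List.mem_append_left _ he') e he rfl
  have vA : ∀ e ∈ A, hgt i A C e = (A.idxOf e : ℝ) := by
    intro e he
    unfold hgt
    rw [if_neg (hA e he), if_pos he]
  have vM : ∀ e ∈ M, hgt i A C e = (A.length : ℝ) := by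
    intro e he
    unfold hgt
    rw [if_pos (hM e he)]
  have vC : ∀ e ∈ C, hgt i A C e = (A.length : ℝ) + 1 + (C.idxOf e : ℝ) := by
    intro e he
    unfold hgt
    rw [if_neg (hC e he), if_neg (hAC e he)]
  have lA : ∀ e ∈ A, hgt i A C e < (A.length : ℝ) := by
    intro e he
    rw [vA e he]
    exact_mod_cast List.idxOf_lt_length_of_mem he
  have lC : ∀ e ∈ C, (A.length : ℝ) < hgt i A C e := by
    intro e he
    rw [vC e he]
    have : (0 : ℝ) ≤ (C.idxOf e : ℝ) := by positivity
    linarith
  rw [List.pairwise_append, List.pairwise_append]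
  refine ⟨⟨?_, ?_, ?_⟩, ?_, ?_⟩
  · have h1 := pairwise_idxOf hnA
    refine List.Pairwise.imp_of_mem ?_ h1
    intro e f he hf h2
    rw [vA e he, vA f hf]
    have h3 : ((A.idxOf e : ℕ) : ℝ) < (A.idxOf f : ℝ) := by exact_mod_cast h2
    exact ⟨h3.le, fun h4 => absurd h4 (ne_of_lt h3)⟩
  · refine List.Pairwise.imp_of_mem (R := fun _ _ => True) ?_ (List.pairwise_of_forall (fun _ _ => trivial))
    intro e f he hf _
    rw [vM e he, vM f hf]
    exact ⟨le_refl _, fun _ => ⟨hM e he, hM f hf⟩⟩
  · intro e he f hf
    have h1 := lA e he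
    rw [vM f hf]
    exact ⟨h1.le, fun h4 => absurd h4 (ne_of_lt h1)⟩
  · have h1 := pairwise_idxOf hnC
    refine List.Pairwise.imp_of_mem ?_ h1
    intro e f he hf h2
    rw [vC e he, vC f hf]
    have h3 : ((C.idxOf e : ℕ) : ℝ) < (C.idxOf f : ℝ) := by exact_mod_cast h2
    exact ⟨by linarith, fun h4 => absurd h4 (by intro h5; linarith)⟩
  · intro e he f hf
    have h2 := lC f hf
    rcases List.mem_append.1 he with he | he
    · have h1 := lA e he
      exact ⟨by linarith, fun h4 => absurd h4 (by intro h5; linarith)⟩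
    · rw [vM e he]
      exact ⟨by linarith, fun h4 => absurd h4 (by intro h5; linarith)⟩

/-- The edges present at times `≥ i`. -/
def EE (n : ℕ) (out : ℕ → List ℕ) (i : ℕ) (L : List (ℕ × ℕ)) (e : ℕ × ℕ) : Prop :=
  e ∈ L ∨ (i ≤ e.1 ∧ e.1 < n ∧ e.2 ∈ out e.1)

/-- The combinatorial heights. -/
structure Heights (n : ℕ) (E : ℕ × ℕ → Prop) (i : ℕ) (h : ℕ → ℕ × ℕ → ℝ) (y : ℕ → ℝ) : Prop where
  lt : ∀ e, E e → e.1 < e.2 ∧ e.2 < n
  c : ∀ e, E e → ∀ j, i ≤ j → j < n → Touch j e → h j e = y j
  a : ∀ e, E e → ∀ j, i ≤ j → j < n → e.1 < j → j < e.2 → h j e ≠ y j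
  b : ∀ e f, E e → E f → e ≠ f → ∀ j, i ≤ j → j < n → e.1 < j → j < e.2 →
    f.1 < j → j < f.2 → h j e ≠ h j f
  d : ∀ e f, E e → E f → e ≠ f → ∀ j, i ≤ j → e.1 ≤ j → j < e.2 → f.1 ≤ j → j < f.2 →
    (h j e ≤ h j f ∧ h (j+1) e ≤ h (j+1) f ∧ (h j e < h j f ∨ h (j+1) e < h (j+1) f)) ∨
    (h j f ≤ h j e ∧ h (j+1) f ≤ h (j+1) e ∧ (h j f < h j e ∨ h (j+1) f < h (j+1) e))

theorem heights_of_run (pos : ℕ → ℕ) (out : ℕ → List ℕ) (n : ℕ) :
    ∀ (k i : ℕ) (L : List (ℕ × ℕ)), i + k = n → run pos out k i L = true →
      L.Nodup → (∀ e ∈ L, e.1 < i ∧ i ≤ e.2) →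
      ∃ (h : ℕ → ℕ × ℕ → ℝ) (y : ℕ → ℝ), Heights n (EE n out i L) i h y ∧
        L.Pairwise (fun e f => h i e ≤ h i f ∧ (h i e = h i f → e.2 = i ∧ f.2 = i)) := by
  intro k
  induction k with
  | zero =>
    intro i L hik hrun hnd hL
    have hL0 : L = [] := by simpa [run] using hrun
    subst hL0
    refine ⟨fun _ _ => 0, fun _ => 0, ⟨?_, ?_, ?_, ?_, ?_⟩, List.Pairwise.nil⟩
    · rintro e (he | ⟨h1, h2, h3⟩)
      · simp at he
      · omega
    · intro e he j _ _ _; rfl
    · intro e he j h1 h2; omega
    · intro e f he hf _ j h1 h2; omega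
    · rintro e f (he | ⟨h1, h2, h3⟩)
      · simp at he
      · omega
  | succ k ih =>
    intro i L hik hrun hnd hL
    rw [run] at hrun
    set A := L.take (pos i) with hA
    set C := (L.drop (pos i)).dropWhile (fun e => e.2 == i) with hC
    set B := (L.drop (pos i)).takeWhile (fun e => e.2 == i) with hB
    have hLe : L = A ++ B ++ C := by
      rw [List.append_assoc, hA, hB, hC, List.takeWhile_append_dropWhile, List.take_append_drop]
    simp only [Bool.and_eq_true, List.all_eq_true, decide_eq_true_eq] at hrun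
    obtain ⟨hA1, hC1, hO1, hO2, hrun⟩ := hrun
    have hA2 : ∀ e ∈ A, e.2 ≠ i := by
      intro e he
      have := hA1 e he
      simpa using this
    have hC2 : ∀ e ∈ C, e.2 ≠ i := by
      intro e he
      have := hC1 e he
      simpa using this
    have hO3 : ∀ w ∈ out i, i < w := by
      intro w hw
      have := hO1 w hw
      simpa [Nat.blt_eq] using this
    have hB2 : ∀ e ∈ B, e.2 = i := by
      intro e he
      have := List.mem_takeWhile_imp he
      simpa using this
    have hmA : ∀ e ∈ A, e ∈ L := fun e he => by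
      rw [hLe]; simp [he]
    have hmB : ∀ e ∈ B, e ∈ L := fun e he => by
      rw [hLe]; simp [he]
    have hmC : ∀ e ∈ C, e ∈ L := fun e he => by
      rw [hLe]; simp [he]
    set O := (out i).map (fun w => (i, w)) with hO
    have hO4 : ∀ e ∈ O, e.1 = i ∧ i < e.2 ∧ e.2 ∈ out i := by
      intro e he
      rw [hO, List.mem_map] at he
      obtain ⟨w, hw, rfl⟩ := he
      exact ⟨rfl, hO3 w hw, hw⟩
    have hLnd : (A ++ B ++ C).Nodup := hLe ▸ hnd
    have hOnd : O.Nodup := hO2.map (fun a b hab => by simpa using hab)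
    have hL'nd : (A ++ O ++ C).Nodup := by
      have h1 := List.nodup_append.1 hLnd
      have h2 := List.nodup_append.1 h1.1
      rw [List.nodup_append, List.nodup_append]
      refine ⟨⟨h2.1, hOnd, ?_⟩, h1.2.1, ?_⟩
      · intro a ha b hb hab
        have := (hL a (hmA a ha)).1
        have h3 := (hO4 b hb).1
        rw [hab] at this
        omega
      · intro a ha b hb hab
        rcases List.mem_append.1 ha with ha | ha
        · exact h1.2.2 a (List.mem_append_left _ ha) b hb hab
        · have := (hL b (hmC b hb)).1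
          have h3 := (hO4 a ha).1
          rw [← hab] at this
          omega
    have hL' : ∀ e ∈ A ++ O ++ C, e.1 < i + 1 ∧ i + 1 ≤ e.2 := by
      intro e he
      rcases List.mem_append.1 he with he | he
      · rcases List.mem_append.1 he with he | he
        · have h1 := hL e (hmA e he)
          have h2 := hA2 e he
          omega
        · have h1 := hO4 e he
          omega
      · have h1 := hL e (hmC e he)
        have h2 := hC2 e he
        omega
    obtain ⟨h', y', hh, hp⟩ := ih (i+1) (A ++ O ++ C) (by omega) hrun hL'nd hL'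
    have tA : ∀ e ∈ A, ¬ Touch i e := by
      intro e he ht
      have h1 := hL e (hmA e he)
      have h2 := hA2 e he
      rcases ht with ht | ht <;> omega
    have tC : ∀ e ∈ C, ¬ Touch i e := by
      intro e he ht
      have h1 := hL e (hmC e he)
      have h2 := hC2 e he
      rcases ht with ht | ht <;> omega
    have tB : ∀ e ∈ B, Touch i e := fun e he => Or.inr (hB2 e he)
    have tO : ∀ e ∈ O, Touch i e := fun e he => Or.inl (hO4 e he).1
    have pL := pairwise_hgt i A B C hLnd tA tB tC
    have pL' := pairwise_hgt i A O C hL'nd tA tO tC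
    -- transfer of membership
    have tr : ∀ e, EE n out i L e → i < e.2 → EE n out (i+1) (A ++ O ++ C) e := by
      rintro e (he | ⟨h1, h2, h3⟩) hi
      · rw [hLe] at he
        rcases List.mem_append.1 he with he | he
        · rcases List.mem_append.1 he with he | he
          · exact Or.inl (by simp [he])
          · have := hB2 e he
            omega
        · exact Or.inl (by simp [he])
      · rcases Nat.lt_or_ge i e.1 with h4 | h4
        · exact Or.inr ⟨h4, h2, h3⟩
        · have h5 : e.1 = i := le_antisymm h4 h1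
          refine Or.inl ?_
          have : e ∈ O := by
            rw [hO, List.mem_map]
            refine ⟨e.2, ?_, ?_⟩
            · rw [← h5]; exact h3
            · rw [← h5]
          simp [this]
    have tr2 : ∀ e, EE n out i L e → i < e.2 → e.1 ≤ i → e ∈ A ++ O ++ C := by
      intro e he h1 h2
      rcases tr e he h1 with h3 | ⟨h3, _, _⟩
      · exact h3
      · omega
    have elt : ∀ e, EE n out i L e → e.1 < e.2 ∧ e.2 < n := by
      intro e he
      rcases Nat.lt_or_ge i e.2 with h1 | h1
      · exact hh.lt e (tr e he h1)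
      · rcases he with he | ⟨h2, h3, h4⟩
        · have := hL e he
          omega
        · exfalso
          rcases Nat.lt_or_ge i e.1 with h5 | h5
          · have h6 : EE n out (i+1) (A ++ O ++ C) e := Or.inr ⟨h5, h3, h4⟩
            have := (hh.lt e h6).1
            omega
          · have h6 : e.1 = i := le_antisymm h5 h2
            rw [h6] at h4
            have := hO3 _ h4
            omega
    refine ⟨fun j e => if j = i then hgt i A C e else h' j e,
      fun j => if j = i then (A.length : ℝ) else y' j, ⟨elt, ?_, ?_, ?_, ?_⟩, ?_⟩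
    · intro e he j h1 h2 ht
      by_cases hj : j = i
      · subst hj
        simp [hgt, ht]
      · simp only [hj, if_false]
        have h3 : i < e.2 := by
          have := elt e he
          rcases ht with ht | ht <;> omega
        exact hh.c e (tr e he h3) j (by omega) h2 ht
    · intro e he j h1 h2 h3 h4
      by_cases hj : j = i
      · subst hj
        simp only [if_true]
        apply hgt_ne
        rintro (h5 | h5) <;> omega
      · simp only [hj, if_false]
        exact hh.a e (tr e he (by omega)) j (by omega) h2 h3 h4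
    · intro e f he hf hne j h1 h2 h3 h4 h5 h6
      by_cases hj : j = i
      · subst hj
        simp only [if_true]
        have me := tr2 e he h4 h3.le
        have mf := tr2 f hf h6 h5.le
        have hsym : (A ++ O ++ C).Pairwise (fun e f => hgt j A C e = hgt j A C f →
            Touch j e ∧ Touch j f) := pL'.imp (fun h => h.2)
        have := forall_of_pairwise (R := fun e f => hgt j A C e = hgt j A C f →
            Touch j e ∧ Touch j f) (fun a b hab h7 => (hab h7.symm).symm) hsym me mf hne
        intro h7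
        have h8 := (this h7).1
        rcases h8 with h8 | h8 <;> omega
      · simp only [hj, if_false]
        exact hh.b e f (tr e he (by omega)) (tr f hf (by omega)) hne j (by omega) h2 h3 h4 h5 h6
    · intro e f he hf hne j h1 h3 h4 h5 h6
      by_cases hj : j = i
      · subst hj
        simp only [if_true, Nat.succ_ne_self, if_false]
        have me := tr2 e he h4 h3
        have mf := tr2 f hf h6 h5
        have hsym : (A ++ O ++ C).Pairwise (fun e f => e ≠ f →
            (hgt j A C e ≤ hgt j A C f ∧ h' (j+1) e ≤ h' (j+1) f ∧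
              (hgt j A C e < hgt j A C f ∨ h' (j+1) e < h' (j+1) f)) ∨
            (hgt j A C f ≤ hgt j A C e ∧ h' (j+1) f ≤ h' (j+1) e ∧
              (hgt j A C f < hgt j A C e ∨ h' (j+1) f < h' (j+1) e))) := by
          refine List.Pairwise.imp_of_mem ?_ (pL'.and hp)
          rintro a b ha hb ⟨⟨q1, q2⟩, ⟨q3, q4⟩⟩ hab
          left
          refine ⟨q1, q3, ?_⟩
          by_contra hcon
          push Not at hcon
          have e1 := le_antisymm q1 hcon.1
          have e2 := le_antisymm q3 hcon.2
          obtain ⟨r1, r2⟩ := q2 e1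
          obtain ⟨r3, r4⟩ := q4 e2
          have s1 := hL' a ha
          have s2 := hL' b hb
          apply hab
          have u1 : a.1 = j := by rcases r1 with r1 | r1 <;> omega
          have u2 : b.1 = j := by rcases r2 with r2 | r2 <;> omega
          exact Prod.ext (by omega) (by omega)
        exact forall_of_pairwise (R := fun e f => e ≠ f →
            (hgt j A C e ≤ hgt j A C f ∧ h' (j+1) e ≤ h' (j+1) f ∧
              (hgt j A C e < hgt j A C f ∨ h' (j+1) e < h' (j+1) f)) ∨
            (hgt j A C f ≤ hgt j A C e ∧ h' (j+1) f ≤ h' (j+1) e ∧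
              (hgt j A C f < hgt j A C e ∨ h' (j+1) f < h' (j+1) e)))
            (fun a b hab h7 => (hab h7.symm).symm) hsym me mf hne hne
      · have hj2 : j + 1 ≠ i := by omega
        simp only [hj, hj2, if_false]
        exact hh.d e f (tr e he (by omega)) (tr f hf (by omega)) hne j (by omega) h3 h4 h5 h6
    · simp only [if_true]
      rw [hLe]
      refine List.Pairwise.imp_of_mem ?_ pL
      rintro a b ha hb ⟨q1, q2⟩
      refine ⟨q1, fun q3 => ?_⟩
      obtain ⟨r1, r2⟩ := q2 q3
      rw [← hLe] at ha hb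
      have s1 := hL a ha
      have s2 := hL b hb
      constructor
      · rcases r1 with r1 | r1 <;> omega
      · rcases r2 with r2 | r2 <;> omega

end Pool.Agent.Havel
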