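import Mathlib
import Pool.Agent.Lib.MP_8e2345_co.DR.Sweep

/-!
From combinatorial heights to an x-monotone piecewise linear drawing.
-/

set_option autoImplicit false

namespace Pool.Agent.Havel

/-- A drawing in the sense of the frozen statement. -/
def Drawable {V : Type} (G : SimpleGraph V) : Prop :=
  ∃ p : V → ℝ × ℝ, Function.Injective p ∧
        ∃ γ : V → V → ℝ → ℝ × ℝ,
          (∀ u v, G.Adj u v →
              ContinuousOn (γ u v) (Set.Icc 0 1) ∧
              γ u v 0 = p u ∧ γ u v 1 = p v ∧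
              Set.InjOn (γ u v) (Set.Icc 0 1) ∧
              ∀ z, p z ∉ γ u v '' Set.Ioo 0 1) ∧
          (∀ u v w x, G.Adj u v → G.Adj w x → s(u, v) ≠ s(w, x) →
              Disjoint (γ u v '' Set.Ioo 0 1) (γ w x '' Set.Ioo 0 1))

/-- Piecewise linear interpolation of the heights. -/
noncomputable def YY (n : ℕ) (h : ℕ → ℕ × ℕ → ℝ) (e : ℕ × ℕ) (x : ℝ) : ℝ :=
  ∑ j ∈ Finset.range (n+1), h j e * max 0 (1 - |x - j|)

theorem YY_cont (n : ℕ) (h : ℕ → ℕ × ℕ → ℝ) (e : ℕ × ℕ) : Continuous (YY n h e) := by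
  unfold YY
  fun_prop

theorem YY_eq (n : ℕ) (h : ℕ → ℕ × ℕ → ℝ) (e : ℕ × ℕ) (j : ℕ) (hj : j < n) (x : ℝ)
    (h1 : (j : ℝ) ≤ x) (h2 : x ≤ (j : ℝ) + 1) :
    YY n h e x = (1 - (x - j)) * h j e + (x - j) * h (j+1) e := by
  unfold YY
  rw [Finset.sum_eq_add j (j+1) (by omega)]
  · have e1 : |x - (j : ℝ)| = x - j := abs_of_nonneg (by linarith)
    have e2 : |x - ((j + 1 : ℕ) : ℝ)| = (j : ℝ) + 1 - x := by
      push_cast
      rw [abs_of_nonpos (by linarith)]
      ring
    rw [e1, e2, max_eq_right (by linarith), max_eq_right (by linarith)]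
    ring
  · intro c _ hc
    have : 1 - |x - (c : ℝ)| ≤ 0 := by
      rcases Nat.lt_or_ge c j with h3 | h3
      · have h4 : (c : ℝ) + 1 ≤ j := by exact_mod_cast h3
        have := le_abs_self (x - (c : ℝ))
        linarith
      · have h5 : j + 2 ≤ c := by
          have := hc.1
          have := hc.2
          omega
        have h4 : (j : ℝ) + 2 ≤ c := by exact_mod_cast h5
        have := neg_abs_le (x - (c : ℝ))
        linarith
    rw [max_eq_left this, mul_zero]
  · intro h3
    exact absurd (Finset.mem_range.2 (by omega)) h3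
  · intro h3
    exact absurd (Finset.mem_range.2 (by omega)) h3

theorem YY_nat (n : ℕ) (h : ℕ → ℕ × ℕ → ℝ) (e : ℕ × ℕ) (j : ℕ) (hj : j < n) :
    YY n h e j = h j e := by
  rw [YY_eq n h e j hj j (le_refl _) (by linarith)]
  ring

/-- sorted pair -/
def key (u v : ℕ) : ℕ × ℕ := if u < v then (u, v) else (v, u)

theorem drawable_of_heights (n : ℕ) (E : ℕ × ℕ → Prop) (h : ℕ → ℕ × ℕ → ℝ) (y : ℕ → ℝ)
    (H : Heights n E 0 h y) (G : SimpleGraph (Fin n))
    (hG : ∀ u v : Fin n, G.Adj u v → E (key u v)) : Drawable G := by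
  have key1 : ∀ u v : Fin n, G.Adj u v → (key u v).1 < (key u v).2 := fun u v huv =>
    (H.lt _ (hG u v huv)).1
  have keyne : ∀ u v : Fin n, G.Adj u v → (u : ℝ) ≠ (v : ℝ) := by
    intro u v huv h1
    apply huv.ne
    exact Fin.ext (by exact_mod_cast h1)
  have keyT : ∀ u v : Fin n, Touch (u : ℕ) (key u v) ∧ Touch (v : ℕ) (key u v) := by
    intro u v
    unfold key Touch
    split_ifs with h1 <;> simp
  -- range of x
  have keyx : ∀ u v : Fin n, G.Adj u v → ∀ t : ℝ, t ∈ Set.Ioo (0:ℝ) 1 →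
      ((key u v).1 : ℝ) < (u : ℝ) + t * ((v : ℝ) - u) ∧
      (u : ℝ) + t * ((v : ℝ) - u) < ((key u v).2 : ℝ) := by
    intro u v huv t ht
    obtain ⟨t0, t1⟩ := ht
    unfold key
    split_ifs with h1
    · have h2 : (u : ℝ) < (v : ℝ) := by exact_mod_cast h1
      have h3 : 0 < t * ((v : ℝ) - u) := mul_pos t0 (by linarith)
      have h4 : 0 < (1 - t) * ((v : ℝ) - u) := mul_pos (by linarith) (by linarith)
      constructor
      · simp only; linarith
      · simp only; linarith
    · have h5 : v < u := lt_of_le_of_ne (not_lt.1 (fun h => h1 h)) (fun h => huv.ne h.symm)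
      have h2 : (v : ℝ) < (u : ℝ) := by exact_mod_cast h5
      have h3 : 0 < t * ((u : ℝ) - v) := mul_pos t0 (by linarith)
      have h4 : 0 < (1 - t) * ((u : ℝ) - v) := mul_pos (by linarith) (by linarith)
      constructor
      · simp only; linarith
      · simp only; linarith
  -- two different edges never have equal heights strictly inside
  have main : ∀ e f : ℕ × ℕ, E e → E f → e ≠ f → ∀ x : ℝ, (e.1 : ℝ) < x → x < (e.2 : ℝ) →
      (f.1 : ℝ) < x → x < (f.2 : ℝ) → YY n h e x ≠ YY n h f x := by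
    intro e f he hf hne x h1 h2 h3 h4
    have hx0 : 0 ≤ x := le_trans (Nat.cast_nonneg _) h1.le
    set j := ⌊x⌋₊ with hj
    have hj1 : (j : ℝ) ≤ x := Nat.floor_le hx0
    have hj2 : x < (j : ℝ) + 1 := Nat.lt_floor_add_one x
    have en := (H.lt e he).2
    have j2 : j < e.2 := by
      have : (j : ℝ) < (e.2 : ℝ) := lt_of_le_of_lt hj1 h2
      exact_mod_cast this
    have j4 : j < f.2 := by
      have : (j : ℝ) < (f.2 : ℝ) := lt_of_le_of_lt hj1 h4
      exact_mod_cast this
    have j1 : e.1 ≤ j := by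
      have : (e.1 : ℝ) < (j : ℝ) + 1 := lt_trans h1 hj2
      have h5 : e.1 < j + 1 := by exact_mod_cast this
      omega
    have j3 : f.1 ≤ j := by
      have : (f.1 : ℝ) < (j : ℝ) + 1 := lt_trans h3 hj2
      have h5 : f.1 < j + 1 := by exact_mod_cast this
      omega
    rw [YY_eq n h e j (by omega) x hj1 hj2.le, YY_eq n h f j (by omega) x hj1 hj2.le]
    rcases eq_or_lt_of_le hj1 with hj3 | hj3
    · -- integer point
      have k1 : e.1 < j := by
        rw [← hj3] at h1
        exact_mod_cast h1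
      have k3 : f.1 < j := by
        rw [← hj3] at h3
        exact_mod_cast h3
      have := H.b e f he hf hne j (Nat.zero_le _) (by omega) k1 j2 k3 j4
      rw [← hj3]
      intro h6
      apply this
      have h7 : (j : ℝ) - j = 0 := by ring
      rw [h7] at h6
      linarith
    · have s0 : 0 < x - j := by linarith
      have s1 : 0 < 1 - (x - j) := by linarith
      rcases H.d e f he hf hne j (Nat.zero_le _) j1 j2 j3 j4 with ⟨a1, a2, a3⟩ | ⟨a1, a2, a3⟩
      · apply ne_of_lt
        rcases a3 with a3 | a3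
        · nlinarith [mul_lt_mul_of_pos_left a3 s1, mul_le_mul_of_nonneg_left a2 s0.le]
        · nlinarith [mul_le_mul_of_nonneg_left a1 s1.le, mul_lt_mul_of_pos_left a3 s0]
      · apply ne_of_gt
        rcases a3 with a3 | a3
        · nlinarith [mul_lt_mul_of_pos_left a3 s1, mul_le_mul_of_nonneg_left a2 s0.le]
        · nlinarith [mul_le_mul_of_nonneg_left a1 s1.le, mul_lt_mul_of_pos_left a3 s0]
  refine ⟨fun u => ((u : ℝ), y u), ?_, fun u v t =>
    ((u : ℝ) + t * ((v : ℝ) - u), YY n h (key u v) ((u : ℝ) + t * ((v : ℝ) - u))), ?_, ?_⟩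
  · intro u v huv
    have h1 : (u : ℝ) = (v : ℝ) := congrArg Prod.fst huv
    exact Fin.ext (by exact_mod_cast h1)
  · intro u v huv
    refine ⟨?_, ?_, ?_, ?_, ?_⟩
    · apply Continuous.continuousOn
      have := YY_cont n h (key u v)
      fun_prop
    · have e1 : (u : ℝ) + 0 * ((v : ℝ) - u) = (u : ℝ) := by ring
      simp only [e1]
      rw [show ((u : ℕ) : ℝ) = (((u : ℕ) : ℕ) : ℝ) from rfl, YY_nat n h _ u u.2,
        H.c _ (hG u v huv) u (Nat.zero_le _) u.2 (keyT u v).1]
    · have e1 : (u : ℝ) + 1 * ((v : ℝ) - u) = (v : ℝ) := by ring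
      simp only [e1]
      rw [YY_nat n h _ v v.2,
        H.c _ (hG u v huv) v (Nat.zero_le _) v.2 (keyT u v).2]
    · intro s _ t _ hst
      have h1 : (u : ℝ) + s * ((v : ℝ) - u) = (u : ℝ) + t * ((v : ℝ) - u) :=
        congrArg Prod.fst hst
      have h2 : (v : ℝ) - u ≠ 0 := sub_ne_zero.2 (keyne u v huv).symm
      have h3 : s * ((v : ℝ) - u) = t * ((v : ℝ) - u) := by linarith
      exact mul_right_cancel₀ h2 h3
    · rintro z ⟨t, ht, hz⟩
      have h1 := keyx u v huv t ht
      have h2 : (u : ℝ) + t * ((v : ℝ) - u) = (z : ℝ) := congrArg Prod.fst hz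
      have h3 : YY n h (key u v) ((u : ℝ) + t * ((v : ℝ) - u)) = y z := congrArg Prod.snd hz
      rw [h2] at h1 h3
      rw [YY_nat n h _ z z.2] at h3
      exact H.a _ (hG u v huv) z (Nat.zero_le _) z.2 (by exact_mod_cast h1.1)
        (by exact_mod_cast h1.2) h3
  · intro u v w x huv hwx hne
    rw [Set.disjoint_left]
    rintro q ⟨t, ht, hq⟩ ⟨s, hs, hq2⟩
    have h1 := keyx u v huv t ht
    have h2 := keyx w x hwx s hs
    rw [← hq2] at hq
    have h3 : (u : ℝ) + t * ((v : ℝ) - u) = (w : ℝ) + s * ((x : ℝ) - w) := congrArg Prod.fst hq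
    have h4 : YY n h (key u v) ((u : ℝ) + t * ((v : ℝ) - u)) =
      YY n h (key w x) ((w : ℝ) + s * ((x : ℝ) - w)) := congrArg Prod.snd hq
    rw [h3] at h1 h4
    refine main _ _ (hG u v huv) (hG w x hwx) ?_ _ h1.1 h1.2 h2.1 h2.2 h4
    intro hk
    apply hne
    unfold key at hk
    rw [Sym2.eq_iff]
    split_ifs at hk with q1 q2 q2
    · left
      exact ⟨Fin.ext (congrArg Prod.fst hk), Fin.ext (congrArg Prod.snd hk)⟩
    · right
      exact ⟨Fin.ext (congrArg Prod.fst hk), Fin.ext (congrArg Prod.snd hk)⟩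
    · right
      exact ⟨Fin.ext (congrArg Prod.snd hk), Fin.ext (congrArg Prod.fst hk)⟩
    · left
      exact ⟨Fin.ext (congrArg Prod.snd hk), Fin.ext (congrArg Prod.fst hk)⟩

end Pool.Agent.Havel
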