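import Mathlib
import Pool.Agent.Lib.MP_8e2345_co.DR.Draw

/-!
Certificates: the graph of a sweep, distances of triangles, no 3-colouring.
-/

set_option autoImplicit false

namespace Pool.Agent.Havel

/-- The graph on `0..n-1` with `u ~ v` if `v ∈ out u` or `u ∈ out v`. -/
def GG (n : ℕ) (out : ℕ → List ℕ) : SimpleGraph (Fin n) :=
  SimpleGraph.fromRel (fun u v => (v : ℕ) ∈ out (u : ℕ))

theorem GG_adj {n : ℕ} {out : ℕ → List ℕ} {u v : Fin n} :
    (GG n out).Adj u v ↔ u ≠ v ∧ ((v : ℕ) ∈ out u ∨ (u : ℕ) ∈ out v) := Iff.rfl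

theorem out_of_run {pos : ℕ → ℕ} {out : ℕ → List ℕ} {n : ℕ} (hr : run pos out n 0 [] = true) :
    ∀ u v : ℕ, u < n → v ∈ out u → u < v ∧ v < n := by
  obtain ⟨h, y, H, -⟩ := heights_of_run pos out n n 0 [] (by omega) hr List.nodup_nil (by simp)
  intro u v hu hv
  exact H.lt (u, v) (Or.inr ⟨Nat.zero_le _, hu, hv⟩)

theorem drawable_of_run {pos : ℕ → ℕ} {out : ℕ → List ℕ} {n : ℕ}
    (hr : run pos out n 0 [] = true) : Drawable (GG n out) := by
  obtain ⟨h, y, H, -⟩ := heights_of_run pos out n n 0 [] (by omega) hr List.nodup_nil (by simp)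
  refine drawable_of_heights n _ h y H _ ?_
  intro u v huv
  rcases (GG_adj.1 huv).2 with h1 | h1
  · have := (out_of_run hr u v u.2 h1).1
    unfold key
    rw [if_pos this]
    exact Or.inr ⟨Nat.zero_le _, u.2, h1⟩
  · have := (out_of_run hr v u v.2 h1).1
    unfold key
    rw [if_neg (by omega)]
    exact Or.inr ⟨Nat.zero_le _, v.2, h1⟩

/-! ### distances -/

/-- the check of one edge -/
def edOK (K : ℕ) (ow dd : ℕ → ℕ) (u v : ℕ) : Bool :=
  Nat.ble (dd u) (dd v + 1) && (Nat.ble (dd v) (dd u + 1) &&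
    (Nat.beq (ow u) (ow v) || (Nat.ble K (dd u + dd v + 1) && Nat.ble (dd u + dd v) (K + 1))))

/-- the check of one triangle -/
def trOK (ow dd : ℕ → ℕ) (tr : ℕ → ℕ × ℕ × ℕ) (u v w : ℕ) : Bool :=
  Nat.beq (dd u) 0 && (Nat.beq (dd v) 0 && (Nat.beq (dd w) 0 &&
    (Nat.beq (ow u) (ow v) && (Nat.beq (ow u) (ow w) && decide (tr (ow u) = (u, v, w))))))

/-- all distance checks at the vertices `< k` -/
def dist (K : ℕ) (out : ℕ → List ℕ) (ow dd : ℕ → ℕ) (tr : ℕ → ℕ × ℕ × ℕ) : ℕ → Bool
  | 0 => true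
  | (u+1) => ((out u).all (fun v => edOK K ow dd u v &&
      (out v).all (fun w => !(decide (w ∈ out u)) || trOK ow dd tr u v w))) &&
      dist K out ow dd tr u

theorem dist_spec {K : ℕ} {out : ℕ → List ℕ} {ow dd : ℕ → ℕ} {tr : ℕ → ℕ × ℕ × ℕ} :
    ∀ n, dist K out ow dd tr n = true → ∀ u < n, ∀ v ∈ out u, edOK K ow dd u v = true ∧
      ∀ w ∈ out v, w ∈ out u → trOK ow dd tr u v w = true := by
  intro n
  induction n with
  | zero => intro _ u hu; omega
  | succ n ih =>
    intro h u hu v hv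
    simp only [dist, Bool.and_eq_true, List.all_eq_true] at h
    rcases Nat.lt_or_ge u n with h1 | h1
    · exact ih h.2 u h1 v hv
    · have h2 : u = n := by omega
      subst h2
      have h3 := h.1 v hv
      refine ⟨h3.1, fun w hw hw2 => ?_⟩
      have h4 := h3.2 w hw
      simpa [hw2] using h4

theorem edOK_iff {K : ℕ} {ow dd : ℕ → ℕ} {u v : ℕ} : edOK K ow dd u v = true ↔
    dd u ≤ dd v + 1 ∧ dd v ≤ dd u + 1 ∧
      (ow u = ow v ∨ (K ≤ dd u + dd v + 1 ∧ dd u + dd v ≤ K + 1)) := by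
  simp [edOK, Nat.ble_eq, Nat.beq_eq]

theorem trOK_iff {ow dd : ℕ → ℕ} {tr : ℕ → ℕ × ℕ × ℕ} {u v w : ℕ} :
    trOK ow dd tr u v w = true ↔ dd u = 0 ∧ dd v = 0 ∧ dd w = 0 ∧ ow u = ow v ∧ ow u = ow w ∧
      tr (ow u) = (u, v, w) := by
  simp [trOK, Nat.beq_eq]

section
variable {n K : ℕ} {pos : ℕ → ℕ} {out : ℕ → List ℕ} {ow dd : ℕ → ℕ} {tr : ℕ → ℕ × ℕ × ℕ}

theorem ed_adj (hd : dist K out ow dd tr n = true)
    {u v : Fin n} (h : (GG n out).Adj u v) :
    dd u ≤ dd v + 1 ∧ dd v ≤ dd u + 1 ∧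
      (ow u = ow v ∨ (K ≤ dd u + dd v + 1 ∧ dd u + dd v ≤ K + 1)) := by
  rcases (GG_adj.1 h).2 with h1 | h1
  · exact edOK_iff.1 (dist_spec n hd u u.2 v h1).1
  · have := edOK_iff.1 (dist_spec n hd v v.2 u h1).1
    refine ⟨this.2.1, this.1, ?_⟩
    rcases this.2.2 with h2 | h2
    · exact Or.inl h2.symm
    · exact Or.inr (by omega)

theorem walk_pot (hr : run pos out n 0 [] = true) (hd : dist K out ow dd tr n = true) (i : ℕ)
    {u v : Fin n} (p : (GG n out).Walk u v) :
    (if ow v = i then (dd v : ℤ) else (K : ℤ) - dd v) ≤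
      (if ow u = i then (dd u : ℤ) else (K : ℤ) - dd u) + p.length := by
  induction p with
  | nil => simp
  | @cons a b c hab q ih =>
    have h1 := ed_adj hd hab
    rw [SimpleGraph.Walk.length_cons]
    push_cast
    have h2 : (if ow b = i then (dd b : ℤ) else (K : ℤ) - dd b) ≤
        (if ow a = i then (dd a : ℤ) else (K : ℤ) - dd a) + 1 := by
      obtain ⟨h3, h4, h5⟩ := h1
      split_ifs with q1 q2 q2
      · omega
      · rcases h5 with h5 | h5
        · exact absurd (h5.trans q1) q2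
        · omega
      · rcases h5 with h5 | h5
        · exact absurd (h5.symm.trans q2) q1
        · omega
      · omega
    linarith

theorem edist_ge (hr : run pos out n 0 [] = true) (hd : dist K out ow dd tr n = true)
    {u v : Fin n} (h1 : ow u ≠ ow v) (h2 : dd u = 0) (h3 : dd v = 0) :
    (K : ℕ∞) ≤ (GG n out).edist u v := by
  unfold SimpleGraph.edist
  refine le_iInf (fun p => ?_)
  have := walk_pot hr hd (ow u) p
  rw [if_neg (Ne.symm h1), if_pos rfl, h2, h3] at this
  have h4 : K ≤ p.length := by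
    push_cast at this
    omega
  exact_mod_cast h4

theorem tri_sorted (hr : run pos out n 0 [] = true) (hd : dist K out ow dd tr n = true)
    {a b c : Fin n} (hab : (GG n out).Adj a b) (hac : (GG n out).Adj a c)
    (hbc : (GG n out).Adj b c) (h1 : a < b) (h2 : b < c) :
    dd a = 0 ∧ dd b = 0 ∧ dd c = 0 ∧ ow a = ow b ∧ ow a = ow c ∧
      tr (ow a) = ((a : ℕ), (b : ℕ), (c : ℕ)) := by
  have key : ∀ x y : Fin n, (GG n out).Adj x y → x < y → (y : ℕ) ∈ out x := by
    intro x y hxy hlt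
    rcases (GG_adj.1 hxy).2 with h | h
    · exact h
    · have := (out_of_run hr y x y.2 h).1
      have h5 : (x : ℕ) < y := hlt
      omega
  have h3 := dist_spec n hd a a.2 b (key a b hab h1)
  exact trOK_iff.1 (h3.2 c (key b c hbc h2) (key a c hac (h1.trans h2)))

/-- A 3-clique is determined by its owner. -/
theorem tri_spec (hr : run pos out n 0 [] = true) (hd : dist K out ow dd tr n = true)
    {A : Finset (Fin n)} (hA : (GG n out).IsNClique 3 A) :
    ∃ o, (∀ a ∈ A, dd a = 0 ∧ ow a = o) ∧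
      ∀ a : Fin n, a ∈ A ↔ ((a : ℕ) = (tr o).1 ∨ (a : ℕ) = (tr o).2.1 ∨ (a : ℕ) = (tr o).2.2) := by
  obtain ⟨a, b, c, hab, hac, hbc, rfl⟩ := SimpleGraph.is3Clique_iff.1 hA
  have base : ∀ x y z : Fin n, (GG n out).Adj x y → (GG n out).Adj x z → (GG n out).Adj y z →
      x < y → y < z → ({a, b, c} : Finset (Fin n)) = {x, y, z} →
      ∃ o, (∀ u ∈ ({a, b, c} : Finset (Fin n)), dd u = 0 ∧ ow u = o) ∧
      ∀ u : Fin n, u ∈ ({a, b, c} : Finset (Fin n)) ↔
        ((u : ℕ) = (tr o).1 ∨ (u : ℕ) = (tr o).2.1 ∨ (u : ℕ) = (tr o).2.2) := by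
    intro x y z hxy hxz hyz h1 h2 he
    obtain ⟨q1, q2, q3, q4, q5, q6⟩ := tri_sorted hr hd hxy hxz hyz h1 h2
    refine ⟨ow x, ?_, ?_⟩
    · intro u hu
      rw [he] at hu
      simp only [Finset.mem_insert, Finset.mem_singleton] at hu
      rcases hu with rfl | rfl | rfl
      · exact ⟨q1, rfl⟩
      · exact ⟨q2, q4.symm⟩
      · exact ⟨q3, q5.symm⟩
    · intro u
      rw [he, q6]
      simp only [Finset.mem_insert, Finset.mem_singleton, Fin.ext_iff]
  rcases lt_or_gt_of_ne hab.ne with h1 | h1 <;> rcases lt_or_gt_of_ne hac.ne with h2 | h2 <;>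
    rcases lt_or_gt_of_ne hbc.ne with h3 | h3
  · exact base a b c hab hac hbc h1 h3 rfl
  · exact base a c b hac hab hbc.symm h2 h3 (by ext; simp; tauto)
  · exact absurd (h1.trans h3) (not_lt.2 h2.le)
  · exact base c a b hac.symm hbc.symm hab h2 h1 (by ext; simp; tauto)
  · exact base b a c hab.symm hbc hac h1 h2 (by ext; simp; tauto)
  · exact absurd (h3.trans h1) (not_lt.2 h2.le)
  · exact base b c a hbc hab.symm hac.symm h3 h2 (by ext; simp; tauto)
  · exact base c b a hbc.symm hac.symm hab.symm h3 h1 (by ext; simp; tauto)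

theorem dist_main (hr : run pos out n 0 [] = true) (hd : dist K out ow dd tr n = true) :
    ∀ A B : Finset (Fin n), (GG n out).IsNClique 3 A → (GG n out).IsNClique 3 B → A ≠ B →
      ∀ a ∈ A, ∀ b ∈ B, (K : ℕ∞) ≤ (GG n out).edist a b := by
  intro A B hA hB hne a ha b hb
  obtain ⟨o, h1, h2⟩ := tri_spec hr hd hA
  obtain ⟨o', h3, h4⟩ := tri_spec hr hd hB
  have hoo : o ≠ o' := by
    rintro rfl
    apply hne
    ext u
    rw [h2, h4]
  refine edist_ge hr hd ?_ (h1 a ha).1 (h3 b hb).1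
  rw [(h1 a ha).2, (h3 b hb).2]
  exact hoo

end

/-! ### colourings -/

/-- Ternary decision trees. -/
inductive T : Type
  | no : T
  | yes : T
  | nd : T → T → T → T
deriving DecidableEq

namespace T

/-- is it `no` -/
def isNo : T → Bool
  | no => true
  | yes => false
  | nd _ _ _ => false

/-- child 0 -/
def ch0 : T → T
  | no => no
  | yes => yes
  | nd a _ _ => a

/-- child 1 -/
def ch1 : T → T
  | no => no
  | yes => yes
  | nd _ a _ => a

/-- child 2 -/
def ch2 : T → T
  | no => no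
  | yes => yes
  | nd _ _ a => a

/-- child -/
def ch (c : Fin 3) (t : T) : T :=
  if c = 0 then t.ch0 else if c = 1 then t.ch1 else t.ch2

/-- node, collapsed if all children are `no` -/
def mk (a b c : T) : T := bif a.isNo && (b.isNo && c.isNo) then no else nd a b c

/-- or -/
def or3 (a b c : T) : T := bif a.isNo && (b.isNo && c.isNo) then no else yes

theorem isNo_iff (t : T) : t.isNo = true ↔ t = no := by
  cases t <;> simp [isNo]

theorem ch_no (c : Fin 3) : ch c no = no := by
  unfold ch ch0 ch1 ch2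
  split_ifs <;> rfl

theorem ch_mk (c : Fin 3) (t : Fin 3 → T) : ch c (mk (t 0) (t 1) (t 2)) = t c := by
  unfold mk
  cases h : (t 0).isNo && ((t 1).isNo && (t 2).isNo) with
  | true =>
    simp only [Bool.and_eq_true, isNo_iff] at h
    rw [cond_true, ch_no]
    fin_cases c
    · exact h.1.symm
    · exact h.2.1.symm
    · exact h.2.2.symm
  | false =>
    rw [cond_false]
    fin_cases c <;> rfl

theorem or3_ne (c : Fin 3) (t : Fin 3 → T) (h : t c ≠ no) : or3 (t 0) (t 1) (t 2) = yes := by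
  unfold or3
  cases h1 : (t 0).isNo && ((t 1).isNo && (t 2).isNo) with
  | true =>
    simp only [Bool.and_eq_true, isNo_iff] at h1
    exfalso
    apply h
    fin_cases c
    · exact h1.1
    · exact h1.2.1
    · exact h1.2.2
  | false => rfl

end T

/-- Flags: in the left list, the right list, both; `p` = forget. -/
inductive Fl : Type
  | l | r | b | pl | pr | pb
deriving DecidableEq

/-- join of two trees -/
def comb : List (ℕ × Fl) → T → T → T
  | [], t, s => bif t.isNo || s.isNo then T.no else T.yes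
  | (x::fl), t, s => bif t.isNo || s.isNo then T.no else
    match x.2 with
    | Fl.l => T.mk (comb fl t.ch0 s) (comb fl t.ch1 s) (comb fl t.ch2 s)
    | Fl.r => T.mk (comb fl t s.ch0) (comb fl t s.ch1) (comb fl t s.ch2)
    | Fl.b => T.mk (comb fl t.ch0 s.ch0) (comb fl t.ch1 s.ch1) (comb fl t.ch2 s.ch2)
    | Fl.pl => T.or3 (comb fl t.ch0 s) (comb fl t.ch1 s) (comb fl t.ch2 s)
    | Fl.pr => T.or3 (comb fl t s.ch0) (comb fl t s.ch1) (comb fl t s.ch2)
    | Fl.pb => T.or3 (comb fl t.ch0 s.ch0) (comb fl t.ch1 s.ch1) (comb fl t.ch2 s.ch2)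

/-- left variables -/
def vl : List (ℕ × Fl) → List ℕ
  | [] => []
  | (x::fl) => match x.2 with
    | Fl.l => x.1 :: vl fl
    | Fl.b => x.1 :: vl fl
    | Fl.pl => x.1 :: vl fl
    | Fl.pb => x.1 :: vl fl
    | Fl.r => vl fl
    | Fl.pr => vl fl

/-- right variables -/
def vr : List (ℕ × Fl) → List ℕ
  | [] => []
  | (x::fl) => match x.2 with
    | Fl.r => x.1 :: vr fl
    | Fl.b => x.1 :: vr fl
    | Fl.pr => x.1 :: vr fl
    | Fl.pb => x.1 :: vr fl
    | Fl.l => vr fl
    | Fl.pl => vr fl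

/-- kept variables -/
def vk : List (ℕ × Fl) → List ℕ
  | [] => []
  | (x::fl) => match x.2 with
    | Fl.l => x.1 :: vk fl
    | Fl.r => x.1 :: vk fl
    | Fl.b => x.1 :: vk fl
    | Fl.pl => vk fl
    | Fl.pr => vk fl
    | Fl.pb => vk fl

/-- follow the path of `f` -/
def desc (f : ℕ → Fin 3) : List ℕ → T → T
  | [], t => t
  | (v::vs), t => desc f vs (T.ch (f v) t)

theorem desc_no (f : ℕ → Fin 3) : ∀ vs, desc f vs T.no = T.no
  | [] => rfl
  | (v::vs) => by rw [desc, T.ch_no, desc_no f vs]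

theorem desc_yes (f : ℕ → Fin 3) : ∀ vs, desc f vs T.yes = T.yes
  | [] => rfl
  | (v::vs) => by
    have : T.ch (f v) T.yes = T.yes := by
      unfold T.ch T.ch0 T.ch1 T.ch2
      split_ifs <;> rfl
    rw [desc, this, desc_yes f vs]

theorem comb_sound (f : ℕ → Fin 3) : ∀ (fl : List (ℕ × Fl)) (t s : T),
    desc f (vl fl) t ≠ T.no → desc f (vr fl) s ≠ T.no → desc f (vk fl) (comb fl t s) ≠ T.no := by
  intro fl
  induction fl with
  | nil =>
    intro t s ht hs
    have h1 : t.isNo = false := by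
      rw [← Bool.not_eq_true, T.isNo_iff]; exact ht
    have h2 : s.isNo = false := by
      rw [← Bool.not_eq_true, T.isNo_iff]; exact hs
    simp [comb, h1, h2, desc, vk]
  | cons x fl ih =>
    intro t s ht hs
    have h1 : t.isNo = false := by
      rw [← Bool.not_eq_true, T.isNo_iff]
      rintro rfl
      exact ht (desc_no _ _)
    have h2 : s.isNo = false := by
      rw [← Bool.not_eq_true, T.isNo_iff]
      rintro rfl
      exact hs (desc_no _ _)
    obtain ⟨v, g⟩ := x
    have pp : ∀ (C : Fin 3 → T), desc f (vk fl) (C (f v)) ≠ T.no →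
        desc f (vk fl) (T.or3 (C 0) (C 1) (C 2)) ≠ T.no := by
      intro C hC
      have : C (f v) ≠ T.no := by
        intro h3
        rw [h3, desc_no] at hC
        exact hC rfl
      rw [T.or3_ne _ _ this, desc_yes]
      simp
    have kk : ∀ (C : Fin 3 → T), desc f (vk fl) (C (f v)) ≠ T.no →
        desc f (v :: vk fl) (T.mk (C 0) (C 1) (C 2)) ≠ T.no := by
      intro C hC
      rw [desc, T.ch_mk]
      exact hC
    cases g
    · simp only [vl, vr, vk, comb, h1, h2, Bool.or_false, cond_false] at *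
      exact kk (fun c => comb fl (T.ch c t) s) (ih _ _ ht hs)
    · simp only [vl, vr, vk, comb, h1, h2, Bool.or_false, cond_false] at *
      exact kk (fun c => comb fl t (T.ch c s)) (ih _ _ ht hs)
    · simp only [vl, vr, vk, comb, h1, h2, Bool.or_false, cond_false] at *
      exact kk (fun c => comb fl (T.ch c t) (T.ch c s)) (ih _ _ ht hs)
    · simp only [vl, vr, vk, comb, h1, h2, Bool.or_false, cond_false] at *
      exact pp (fun c => comb fl (T.ch c t) s) (ih _ _ ht hs)
    · simp only [vl, vr, vk, comb, h1, h2, Bool.or_false, cond_false] at *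
      exact pp (fun c => comb fl t (T.ch c s)) (ih _ _ ht hs)
    · simp only [vl, vr, vk, comb, h1, h2, Bool.or_false, cond_false] at *
      exact pp (fun c => comb fl (T.ch c t) (T.ch c s)) (ih _ _ ht hs)

/-- Certificates: nothing, edge (two orders), join. -/
inductive X : Type
  | t : X
  | e : ℕ → ℕ → X
  | f : ℕ → ℕ → X
  | j : List (ℕ × Fl) → X → X → X

/-- the tree of an edge -/
def ET : T := T.nd (T.nd T.no T.yes T.yes) (T.nd T.yes T.no T.yes) (T.nd T.yes T.yes T.no)

/-- variables of a certificate -/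
def X.vars : X → List ℕ
  | X.t => []
  | X.e u v => [u, v]
  | X.f u v => [v, u]
  | X.j fl _ _ => vk fl

/-- tree of a certificate -/
def X.tr : X → T
  | X.t => T.yes
  | X.e _ _ => ET
  | X.f _ _ => ET
  | X.j fl a b => comb fl a.tr b.tr

/-- consistency of a certificate with the graph -/
def X.ok (n : ℕ) (out : ℕ → List ℕ) : X → Bool
  | X.t => true
  | X.e u v => Nat.blt u n && (out u).any (fun w => Nat.beq v w)
  | X.f u v => Nat.blt u n && (out u).any (fun w => Nat.beq v w)
  | X.j fl a b => decide (vl fl = a.vars) && (decide (vr fl = b.vars) && (a.ok n out && b.ok n out))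

theorem X.sound {n : ℕ} {out : ℕ → List ℕ} (f : ℕ → Fin 3)
    (hf : ∀ u v, u < n → v ∈ out u → f u ≠ f v) :
    ∀ x : X, x.ok n out = true → desc f x.vars x.tr ≠ T.no := by
  intro x
  induction x with
  | t =>
    intro _
    simp [X.vars, X.tr, desc]
  | e u v =>
    intro h
    simp only [X.ok, Bool.and_eq_true, Nat.blt_eq, List.any_eq_true, Nat.beq_eq,
      exists_eq_right'] at h
    have h1 := hf u v h.1 h.2
    simp only [X.vars, X.tr, desc]
    generalize f u = a at h1 ⊢
    generalize f v = b at h1 ⊢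
    revert a b
    decide
  | f u v =>
    intro h
    simp only [X.ok, Bool.and_eq_true, Nat.blt_eq, List.any_eq_true, Nat.beq_eq,
      exists_eq_right'] at h
    have h1 := hf u v h.1 h.2
    simp only [X.vars, X.tr, desc]
    generalize f u = a at h1 ⊢
    generalize f v = b at h1 ⊢
    revert a b
    decide
  | j fl a b iha ihb =>
    intro h
    simp only [X.ok, Bool.and_eq_true, decide_eq_true_eq] at h
    simp only [X.vars, X.tr]
    apply comb_sound
    · rw [h.1]
      exact iha h.2.2.1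
    · rw [h.2.1]
      exact ihb h.2.2.2

theorem not_colorable {n : ℕ} {pos : ℕ → ℕ} {out : ℕ → List ℕ}
    (hr : run pos out n 0 [] = true) (x : X) (hx : x.ok n out = true)
    (ht : x.tr = T.no) : ¬ (GG n out).Colorable 3 := by
  rintro ⟨C⟩
  let f : ℕ → Fin 3 := fun u => if h : u < n then C ⟨u, h⟩ else 0
  refine X.sound f ?_ x hx ?_
  · intro u v hu hv
    have h1 := out_of_run hr u v hu hv
    have h2 : (GG n out).Adj ⟨u, hu⟩ ⟨v, h1.2⟩ :=
      GG_adj.2 ⟨by rw [Ne, Fin.mk.injEq]; omega, Or.inl hv⟩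
    have h3 := C.valid h2
    simp only [f, hu, h1.2, dif_pos]
    exact h3
  · rw [ht, desc_no]

/-- Binary trees for tables, low bit first. -/
inductive BT (α : Type) : Type
  | l : α → BT α
  | n : BT α → BT α → BT α

/-- lookup -/
def BT.get {α : Type} : BT α → ℕ → α
  | BT.l a, _ => a
  | BT.n a b, i => bif Nat.beq (i % 2) 0 then a.get (i / 2) else b.get (i / 2)

/-- Everything together. -/
theorem main {n K : ℕ} {pos : ℕ → ℕ} {out : ℕ → List ℕ} {ow dd : ℕ → ℕ} {tr : ℕ → ℕ × ℕ × ℕ}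
    {x : X} (hr : run pos out n 0 [] = true) (hd : dist K out ow dd tr n = true)
    (hx : x.ok n out = true) (ht : x.tr = T.no) :
    ¬ (∀ (V : Type) [Fintype V] (G : SimpleGraph V), Drawable G →
      (∀ A B : Finset V, G.IsNClique 3 A → G.IsNClique 3 B → A ≠ B →
          ∀ a ∈ A, ∀ b ∈ B, (K : ℕ∞) ≤ G.edist a b) →
      G.Colorable 3) := by
  intro h
  exact not_colorable hr x hx ht (h (Fin n) (GG n out) (drawable_of_run hr) (dist_main hr hd))

end Pool.Agent.Havel
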